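import Pool.Agent.H82.RP.TB

/-!
MP_76b9e7_nt: module LBH (board rpw_modules): the size of the weights.
-/

set_option autoImplicit false

open Finset Real ArithmeticFunction
open scoped Nat ArithmeticFunction.Moebius

namespace Pool.Agent.H61.RP

open Pool.Agent.H82.RP
open Pool.Agent.H31.MP (RS Rgh Pz Me Om)

open Classical in
theorem mem_RS {z Y : ℝ} {a : ℕ} : a ∈ RS z Y ↔ (1 ≤ a ∧ a ≤ ⌊Y⌋₊) ∧ Rgh z a := by
  unfold RS
  rw [Finset.mem_filter, Finset.mem_Icc]

theorem RS_dvd {z Y : ℝ} {a b : ℕ} (ha : a ∈ RS z Y) (hb : b ∣ a) : b ∈ RS z Y := by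
  rw [mem_RS] at ha ⊢
  have h0 : 0 < a := ha.1.1
  exact ⟨⟨Nat.pos_of_dvd_of_pos hb h0, (Nat.le_of_dvd h0 hb).trans ha.1.2⟩,
    ha.2.1.squarefree_of_dvd hb, fun p hp hpb => ha.2.2 p hp (hpb.trans hb)⟩

theorem RS_mono {z Y X : ℝ} (h : Y ≤ X) : RS z Y ⊆ RS z X := by
  intro a ha
  rw [mem_RS] at ha ⊢
  exact ⟨⟨ha.1.1, ha.1.2.trans (Nat.floor_le_floor h)⟩, ha.2⟩

theorem tot_split {a d : ℕ} (ha : Squarefree a) (hd : d ∣ a) :
    a.totient = d.totient * (a / d).totient := by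
  obtain ⟨b, rfl⟩ := hd
  have h0 : 0 < d := by
    rcases Nat.eq_zero_or_pos d with h | h
    · subst h; rw [zero_mul] at ha; exact absurd ha not_squarefree_zero
    · exact h
  rw [Nat.mul_div_cancel_left _ h0]
  exact Nat.totient_mul (Nat.coprime_of_squarefree_mul ha)

theorem tot_dvd_sum (z Y : ℝ) (d : ℕ) (hd : 0 < d) :
    ∑ a ∈ (RS z Y).filter (fun a => d ∣ a), 1 / (a.totient : ℝ) ≤
      1 / (d.totient : ℝ) * ∑ a ∈ RS z Y, 1 / (a.totient : ℝ) := by
  have h1 : ∀ a ∈ (RS z Y).filter (fun a => d ∣ a), 1 / (a.totient : ℝ) =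
      1 / (d.totient : ℝ) * (1 / ((a / d).totient : ℝ)) := by
    intro a ha
    rw [Finset.mem_filter] at ha
    rw [tot_split (mem_RS.1 ha.1).2.1 ha.2]
    push_cast
    rw [one_div_mul_one_div]
  rw [Finset.sum_congr rfl h1, ← Finset.mul_sum]
  refine mul_le_mul_of_nonneg_left ?_ (by positivity)
  rw [← Finset.sum_image (f := fun b : ℕ => 1 / (b.totient : ℝ)) (g := fun a => a / d)
    (s := (RS z Y).filter (fun a => d ∣ a))]
  · refine Finset.sum_le_sum_of_subset_of_nonneg ?_ fun _ _ _ => by positivity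
    intro b hb
    obtain ⟨a, ha, rfl⟩ := Finset.mem_image.1 hb
    rw [Finset.mem_filter] at ha
    exact RS_dvd ha.1 (Nat.div_dvd_of_dvd ha.2)
  · intro a ha a' ha' h
    have ha2 := (Finset.mem_filter.1 (Finset.mem_coe.1 ha)).2
    have ha2' := (Finset.mem_filter.1 (Finset.mem_coe.1 ha')).2
    simp only at h
    rw [← Nat.div_mul_cancel ha2, ← Nat.div_mul_cancel ha2', h]

theorem yH_ne {m : ℕ} {Y : ℝ} {g : ℕ → ℝ} {H : Finset (Fin m)} {r : Fin m → ℕ}
    (h : yH Y g H r ≠ 0) : (∀ i, r i ≠ 1 ↔ i ∈ H) ∧ ((∏ i, r i : ℕ) : ℝ) ≤ Y := by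
  unfold yH at h
  by_contra hcon
  rw [if_neg hcon] at h
  exact h rfl

theorem yH_le {m : ℕ} {Y : ℝ} {g : ℕ → ℝ} (hg : ∀ a, 0 ≤ g a ∧ g a ≤ 1)
    (H : Finset (Fin m)) (r : Fin m → ℕ) : |yH Y g H r| ≤ 1 := by
  unfold yH
  split_ifs
  · rw [Finset.abs_prod]
    refine Finset.prod_le_one (fun i _ => abs_nonneg _) fun i _ => ?_
    rw [abs_neg, abs_of_nonneg (hg _).1]
    exact (hg _).2
  · rw [abs_zero]; norm_num

open Classical in
theorem main {X Y δ C0 : ℝ} {g : ℕ → ℝ} {m : ℕ} (hC0 : 0 < C0) (hYX : Y ≤ X)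
    (hg : ∀ a, 0 ≤ g a ∧ g a ≤ 1)
    (hphi : ∀ u ∈ RS (X ^ δ) X, (u : ℝ) ≤ C0 * u.totient)
    (hsum : ∑ u ∈ RS (X ^ δ) X, 1 / (u.totient : ℝ) ≤ C0) (K : ℕ) (H : Finset (Fin m))
    (hH : H.card ≤ K) :
    WG H (X ^ δ) Y ((C0 * C0 + 1) ^ K) (LH (X ^ δ) Y g H) := by
  set z : ℝ := X ^ δ with hz
  have hex : ∀ d, LH z Y g H d ≠ 0 → ∃ r ∈ BG (Fin m) z Y, (∀ i, d i ∣ r i) ∧
      yH Y g H r ≠ 0 := by
    intro d hd
    by_contra hcon
    push Not at hcon
    apply hd
    unfold LH lG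
    rw [Finset.sum_eq_zero, mul_zero]
    intro r hr
    split_ifs with h
    · rw [hcon r hr h, zero_div]
    · rfl
  have hsupp : ∀ d, LH z Y g H d ≠ 0 → d ∈ BG (Fin m) z Y ∧ ((∏ i, d i : ℕ) : ℝ) ≤ Y ∧
      ∀ i, i ∉ H → d i = 1 := by
    intro d hd
    obtain ⟨r, hr, hdr, hyr⟩ := hex d hd
    obtain ⟨h1, h2⟩ := yH_ne hyr
    unfold BG at hr ⊢
    rw [Fintype.mem_piFinset] at hr ⊢
    refine ⟨fun i => RS_dvd (hr i) (hdr i), ?_, ?_⟩
    · refine le_trans ?_ h2
      exact_mod_cast Finset.prod_le_prod' fun i _ =>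
        Nat.le_of_dvd (mem_RS.1 (hr i)).1.1 (hdr i)
    · intro i hi
      have h3 : r i = 1 := by
        by_contra hcon
        exact hi ((h1 i).1 hcon)
      have h4 := hdr i
      rw [h3] at h4
      exact Nat.dvd_one.1 h4
  refine ⟨hsupp, ?_⟩
  intro d
  by_cases hd0 : LH z Y g H d = 0
  · rw [hd0, abs_zero]; positivity
  obtain ⟨hd, -, hd1⟩ := hsupp d hd0
  unfold BG at hd
  rw [Fintype.mem_piFinset] at hd
  unfold LH lG
  rw [abs_mul, Finset.abs_prod]
  have h1 : ∏ i, |((μ (d i) : ℤ) : ℝ) * (d i : ℝ)| ≤ ∏ i, (d i : ℝ) := by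
    refine Finset.prod_le_prod (fun i _ => abs_nonneg _) fun i _ => ?_
    rw [abs_mul, Nat.abs_cast]
    have h2 : |((μ (d i) : ℤ) : ℝ)| ≤ 1 := by exact_mod_cast ArithmeticFunction.abs_moebius_le_one
    exact mul_le_of_le_one_left (Nat.cast_nonneg _) h2
  have h2 : |∑ r ∈ BG (Fin m) z Y,
        (if ∀ i, d i ∣ r i then yH Y g H r / ∏ i, ((r i).totient : ℝ) else 0)| ≤
      ∏ i, ∑ a ∈ (RS z Y).filter (fun a => d i ∣ a ∧ (i ∈ H ∨ a = 1)),
        1 / (a.totient : ℝ) := by
    rw [Finset.prod_univ_sum]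
    refine (Finset.abs_sum_le_sum_abs _ _).trans ?_
    have h3 : Fintype.piFinset (fun i => (RS z Y).filter (fun a => d i ∣ a ∧ (i ∈ H ∨ a = 1))) =
        (BG (Fin m) z Y).filter (fun r => ∀ i, d i ∣ r i ∧ (i ∈ H ∨ r i = 1)) := by
      ext r
      unfold BG
      rw [Finset.mem_filter, Fintype.mem_piFinset, Fintype.mem_piFinset]
      simp only [Finset.mem_filter, forall_and]
    rw [h3, Finset.sum_filter]
    refine Finset.sum_le_sum fun r _ => ?_
    by_cases hc : ∀ i, d i ∣ r i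
    · rw [if_pos hc]
      by_cases hy0 : yH Y g H r = 0
      · rw [hy0, zero_div, abs_zero]
        split_ifs
        · exact Finset.prod_nonneg fun i _ => by positivity
        · exact le_rfl
      · obtain ⟨hy1, -⟩ := yH_ne hy0
        have hcc : ∀ i, d i ∣ r i ∧ (i ∈ H ∨ r i = 1) := by
          intro i
          refine ⟨hc i, ?_⟩
          by_cases hi : r i = 1
          · right; exact hi
          · left; exact (hy1 i).1 hi
        rw [if_pos hcc, abs_div, Finset.prod_div_distrib, Finset.prod_const_one]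
        rw [abs_of_nonneg (a := ∏ i, ((r i).totient : ℝ))
          (Finset.prod_nonneg fun i _ => Nat.cast_nonneg _)]
        exact div_le_div_of_nonneg_right (yH_le hg H r)
          (Finset.prod_nonneg fun i _ => Nat.cast_nonneg _)
    · rw [if_neg hc, abs_zero]
      split_ifs
      · exact Finset.prod_nonneg fun i _ => by positivity
      · exact le_rfl
  refine (mul_le_mul h1 (le_of_eq_of_le (congrArg abs (Finset.sum_congr rfl fun r _ => ?_)) h2)
    (abs_nonneg _) (Finset.prod_nonneg fun i _ => Nat.cast_nonneg _)).trans ?_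
  · by_cases h : ∀ i, d i ∣ r i
    · rw [if_pos h, if_pos h]
    · rw [if_neg h, if_neg h]
  rw [← Finset.prod_mul_distrib]
  have h4 : ∏ i : Fin m, (if i ∈ H then C0 * C0 else 1) = (C0 * C0) ^ H.card := by
    rw [Finset.prod_ite_mem, Finset.univ_inter, Finset.prod_const]
  have h5 : (C0 * C0) ^ H.card ≤ (C0 * C0 + 1) ^ K := by
    have hc0 : 0 < C0 * C0 := mul_pos hC0 hC0
    calc (C0 * C0) ^ H.card ≤ (C0 * C0 + 1) ^ H.card :=
          pow_le_pow_left₀ hc0.le (by linarith) _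
      _ ≤ (C0 * C0 + 1) ^ K := pow_le_pow_right₀ (by linarith) hH
  refine le_trans ?_ h5
  rw [← h4]
  refine Finset.prod_le_prod (fun i _ => ?_) fun i _ => ?_
  · exact mul_nonneg (Nat.cast_nonneg _) (Finset.sum_nonneg fun _ _ => by positivity)
  · by_cases hiH : i ∈ H
    · rw [if_pos hiH]
      have hdi := hd i
      have hdi0 : 0 < d i := (mem_RS.1 hdi).1.1
      have hphi0 : (0 : ℝ) < ((d i).totient : ℝ) := by
        exact_mod_cast Nat.totient_pos.2 hdi0
      have h5 := tot_dvd_sum z Y (d i) hdi0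
      have h6 : ∑ a ∈ RS z Y, 1 / (a.totient : ℝ) ≤ C0 :=
        (Finset.sum_le_sum_of_subset_of_nonneg (RS_mono hYX) fun _ _ _ => by positivity).trans hsum
      have h7 := hphi (d i) (RS_mono hYX hdi)
      have h8 : ∑ a ∈ (RS z Y).filter (fun a => d i ∣ a ∧ (i ∈ H ∨ a = 1)), 1 / (a.totient : ℝ) ≤
          ∑ a ∈ (RS z Y).filter (fun a => d i ∣ a), 1 / (a.totient : ℝ) := by
        refine Finset.sum_le_sum_of_subset_of_nonneg ?_ fun _ _ _ => by positivity
        intro a ha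
        rw [Finset.mem_filter] at ha ⊢
        exact ⟨ha.1, ha.2.1⟩
      calc (d i : ℝ) * ∑ a ∈ (RS z Y).filter (fun a => d i ∣ a ∧ (i ∈ H ∨ a = 1)),
            1 / (a.totient : ℝ)
          ≤ (d i : ℝ) * (1 / ((d i).totient : ℝ) * C0) :=
            mul_le_mul_of_nonneg_left
              (h8.trans (h5.trans (mul_le_mul_of_nonneg_left h6 (by positivity))))
              (Nat.cast_nonneg _)
        _ = ((d i : ℝ) / (d i).totient) * C0 := by ring
        _ ≤ C0 * C0 := by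
            refine mul_le_mul_of_nonneg_right ?_ hC0.le
            rw [div_le_iff₀ hphi0]
            exact h7
    · rw [if_neg hiH, hd1 i hiH]
      have h9 : ∑ a ∈ (RS z Y).filter (fun a => 1 ∣ a ∧ (i ∈ H ∨ a = 1)),
          1 / (a.totient : ℝ) ≤ ∑ a ∈ ({1} : Finset ℕ), 1 / (a.totient : ℝ) := by
        refine Finset.sum_le_sum_of_subset_of_nonneg ?_ fun _ _ _ => by positivity
        intro a ha
        rw [Finset.mem_filter] at ha
        rcases ha.2.2 with h | h
        · exact absurd h hiH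
        · rw [Finset.mem_singleton]; exact h
      rw [Finset.sum_singleton, Nat.totient_one] at h9
      rw [Nat.cast_one, one_mul]
      refine h9.trans ?_
      norm_num

theorem pf_LBH (hQO : Pool.Agent.H31.MP.T_QO) : T_LBH := by
  intro K δ hδ
  obtain ⟨C0, hC0, hQ⟩ := hQO δ hδ
  refine ⟨2 * (C0 * C0 + 1) ^ K, by positivity, ?_⟩
  intro X Y g m H hX hY hYX hg hH
  obtain ⟨-, -, hphi, hsum⟩ := hQ X hX
  have hpos : (0 : ℝ) < (C0 * C0 + 1) ^ K := by positivity
  have hM := main (m := m) hC0 hYX hg hphi hsum K H hH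
  refine ⟨⟨hM.supp, fun d => (hM.bd d).trans (by linarith)⟩, ?_⟩
  intro j hj
  by_cases hc : H.card < K
  · have hM' := main (m := m) hC0 hYX hg hphi hsum K (insert j H)
      (by rw [Finset.card_insert_of_notMem hj]; omega)
    refine ⟨?_, ?_⟩
    · intro d hd
      unfold Pool.Agent.H82.RP.LE at hd
      rw [if_pos hc] at hd
      by_cases h1 : LH (X ^ δ) Y g H d = 0
      · rw [h1, zero_add] at hd
        unfold rs at hd
        by_cases h2 : d j = 1
        · rw [if_pos h2] at hd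
          obtain ⟨h3, h4, h5⟩ := hM'.supp d hd
          refine ⟨h3, h4, fun i hi => ?_⟩
          by_cases hij : i = j
          · rw [hij]; exact h2
          · exact h5 i (by
              rw [Finset.mem_insert]
              rintro (h | h)
              · exact hij h
              · exact hi h)
        · rw [if_neg h2] at hd
          exact absurd rfl hd
      · exact hM.supp d h1
    · intro d
      unfold Pool.Agent.H82.RP.LE
      rw [if_pos hc]
      have h1 := hM.bd d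
      have h2 : |rs j (LH (X ^ δ) Y g (insert j H)) d| ≤ (C0 * C0 + 1) ^ K := by
        unfold rs
        split_ifs
        · exact hM'.bd d
        · rw [abs_zero]; exact hpos.le
      calc |LH (X ^ δ) Y g H d + rs j (LH (X ^ δ) Y g (insert j H)) d|
          ≤ |LH (X ^ δ) Y g H d| + |rs j (LH (X ^ δ) Y g (insert j H)) d| := abs_add_le _ _
        _ ≤ 2 * (C0 * C0 + 1) ^ K := by linarith
  · refine ⟨?_, ?_⟩
    · intro d hd
      unfold Pool.Agent.H82.RP.LE at hd
      rw [if_neg hc, add_zero] at hd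
      exact hM.supp d hd
    · intro d
      unfold Pool.Agent.H82.RP.LE
      rw [if_neg hc, add_zero]
      exact (hM.bd d).trans (by linarith)

end Pool.Agent.H61.RP
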